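import Pool.Agent.Lib.MP_a8d7f7_al.Growth

/-!
In characteristic `p > 0` the annihilators of the permutation modules of colourings with
`n = 0, 1, 2, …` colours form a strictly decreasing chain of nonzero prime ideals of
`K[FSym(Ω)]` with intersection `0`, and every nonzero two-sided ideal contains one of them, with
an explicit bound; it also contains the symmetrizer and the antisymmetrizer of every sufficiently
large finite set.
-/

namespace Pool.Agent.Results.MP_a8d7f7_al.CoinitialChain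

open FinSym

theorem result (K : Type*) [Field K] (p : ℕ) [Fact p.Prime] [CharP K p] (Ω : Type*) [Infinite Ω]
    [DecidableEq Ω] :
    (StrictAnti (Ann K Ω) ∧ (∀ n, Ann K Ω n ≠ ⊥) ∧ ⨅ n, Ann K Ω n = ⊥ ∧
      ∀ n x y, (∀ a, x * a * y ∈ Ann K Ω n) → x ∈ Ann K Ω n ∨ y ∈ Ann K Ω n) ∧
    ∀ (I : TwoSidedIdeal (MonoidAlgebra K (FSym Ω))) (f : MonoidAlgebra K (FSym Ω)),
      f ∈ I → f ≠ 0 → ∀ X : Finset Ω, X.Nonempty →
      (∀ σ ∈ f.coeff.support, ∀ z, z ∉ X → (σ : Equiv.Perm Ω) z = z) →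
      Ann K Ω (X.card * (p + 1) ^ (X.card - 1) - 1) ≤ I ∧
      ∀ Δ : Finset Ω, X.card * (p + 1) ^ (X.card - 1) ≤ Δ.card →
        symmetrizer K Δ ∈ I ∧ antisymmetrizer K Δ ∈ I := by
  refine ⟨⟨Ann_strictAnti, Ann_ne_bot, iInf_Ann, ?_⟩, ?_⟩
  · intro n x y h
    by_contra hcon
    rw [not_or] at hcon
    obtain ⟨a, ha⟩ := Ann_prime hcon.1 hcon.2
    exact ha (h a)
  · intro I f hf hf0 X hXn hX
    have hX1 : 1 ≤ X.card := Finset.card_pos.mpr hXn
    have hA : ∀ Δ : Finset Ω, X.card * (p + 1) ^ (X.card - 1) ≤ Δ.card →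
        symmetrizer K Δ ∈ I ∧ antisymmetrizer K Δ ∈ I := fun Δ hΔ =>
      thmA (Fact.out : p.Prime) hf hf0 hX1 hX hΔ
    refine ⟨?_, hA⟩
    have hpos : 1 ≤ X.card * (p + 1) ^ (X.card - 1) :=
      Nat.mul_pos hX1 (Nat.pow_pos (Nat.succ_pos p))
    apply Ann_le _ inferInstance
    intro Δ hΔ
    exact (hA Δ (by omega)).2

end Pool.Agent.Results.MP_a8d7f7_al.CoinitialChain
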