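import Pool.Agent.Lib.MP_a8d7f7_al.N.Cnt
import Pool.Agent.Lib.MP_a8d7f7_al.N.Jac
import Pool.Agent.Lib.MP_a8d7f7_al.N.Desc2
import Pool.Agent.Lib.MP_a8d7f7_al.N.KBpr
import Pool.Agent.Lib.MP_a8d7f7_al.N.AnnNil
import Pool.Agent.Lib.MP_a8d7f7_al.N.TwD

/-!
# The semiprimitive ideals of `K[FSym(Ω)]` in characteristic `p`

`K` is a field of characteristic `p > 0`, `Ω` an infinite set. All two-sided ideals `I` of
`K[FSym(Ω)]` with `J(K[FSym(Ω)]/I) = 0` are determined: they are `0` and the finite intersections of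
the sets `KB c`, which are the nonzero prime ones; they satisfy the ascending chain condition, are
determined by finite parts, are defined over the prime field, and there are only countably many.
In characteristic 2 there are primes which are not among them: every `Ann(M_m)`, `m ≥ 2`, lies nil over
a smaller prime.
-/

namespace Pool.Agent.Results.MP_a8d7f7_al.SemiprimitiveIdeals

open FinSym NoethSym
open SmallPrime (IsPrime SAlg incl emb)
open ThreeLetter (Ideals)

theorem result (K : Type*) [Field K] (p : ℕ) [Fact p.Prime] [CharP K p] (Ω : Type*) [Infinite Ω]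
    [DecidableEq Ω] :
    -- the nonzero prime semiprimitive ideals
    (∀ P : Ideals K Ω, (P ≠ ⊥ ∧ IsPrime P ∧ Semiprimitive P) ↔ ∃ (n : ℕ) (c : Fin n → ℕ∞),
      {a | Below c a ∧ PReg p a}.Infinite ∧ ∀ y, y ∈ P ↔ KB c y) ∧
    -- every `c` gives an ideal
    (∀ (n : ℕ) (c : Fin n → ℕ∞),
      ({a | Below c a ∧ PReg p a}.Infinite → ∃ P : Ideals K Ω, ∀ y, y ∈ P ↔ KB c y) ∧
      ({a | Below c a ∧ PReg p a}.Finite → ∀ y : MonoidAlgebra K (FSym Ω), KB c y)) ∧
    -- the semiprimitive ideals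
    (∀ I : Ideals K Ω, Semiprimitive I ↔ I = ⊥ ∨ ∃ (n : ℕ) (C : Finset (Fin n → ℕ∞)),
      ∀ y, y ∈ I ↔ ∀ c ∈ C, KB c y) ∧
    -- no bounds: the annihilator of the colourings with `n` colours
    (∀ n : ℕ, 1 ≤ n → ∀ y : MonoidAlgebra K (FSym Ω), KB (fun _ : Fin n => ⊤) y ↔ y ∈ Ann K Ω n) ∧
    -- ascending chains
    (∀ I : ℕ → Ideals K Ω, Monotone I → (∀ k, Semiprimitive (I k)) → ∃ m, ∀ k, m ≤ k → I k = I m) ∧
    -- finite determination
    (∀ I : Ideals K Ω, Semiprimitive I → ∃ D : Finset Ω, ∀ J : Ideals K Ω, Semiprimitive J →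
      (∀ x ∈ restr I D, x ∈ restr J D) → I ≤ J) ∧
    -- there are countably many
    {I : Ideals K Ω | Semiprimitive I}.Countable ∧
    -- definition over the prime field
    (∀ I : Ideals K Ω, Semiprimitive I → ∀ x ∈ I,
      x ∈ Submodule.span K {y : MonoidAlgebra K (FSym Ω) | IntC y ∧ y ∈ I}) ∧
    -- semiprimitive means that there are no nil ideals
    (∀ I : Ideals K Ω, Semiprimitive I ↔
      ∀ J : Ideals K Ω, (∀ y ∈ J, ∃ N : ℕ, y ^ N ∈ I) → J ≤ I) ∧
    -- characteristic 2: primes which are not semiprimitive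
    (p = 2 → ∀ m : ℕ, 2 ≤ m → ∃ P : Ideals K Ω, IsPrime P ∧ P < Ann K Ω m ∧ ¬ Semiprimitive P ∧
      ∀ y ∈ Ann K Ω m, ∃ N : ℕ, y ^ N ∈ P) := by
  classical
  have hp : p.Prime := Fact.out
  refine ⟨fun P => ⟨?_, ?_⟩, fun n c => ⟨fun h => ?_, fun h y => kb_fin hp h y⟩, fun I => ?_,
    fun n hn y => ⟨fun h => ?_, kb_ann hn _⟩,
    fun I hm h => acc hp I hm fun k => nilFree_of_semiprimitive (h k),
    fun I hI => ?_, ?_, fun I hI x hx => mem_span_int hp (nilFree_of_semiprimitive hI) hx,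
    fun I => semiprimitive_iff I, ?_⟩
  · rintro ⟨h0, hP, hS⟩
    obtain ⟨n, c, hc⟩ := desc_prime hp hP (nilFree_of_semiprimitive hS) h0
    refine ⟨n, c, ?_, hc⟩
    by_contra hfin
    rw [Set.not_infinite] at hfin
    apply hP.1
    rw [eq_top_iff]
    intro y _
    exact (hc y).2 (kb_fin hp hfin y)
  · rintro ⟨n, c, hinf, hc⟩
    have hn : 1 ≤ n := by
      by_contra hn
      obtain rfl : n = 0 := by omega
      exact hinf (Set.toFinite _)
    have hne : P ≠ ⊥ := by
      rintro rfl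
      apply Ann_ne_bot (K := K) (Ω := Ω) n
      rw [eq_bot_iff]
      intro y hy
      exact (hc y).2 (kb_ann hn c hy)
    have htop : P ≠ ⊤ := by
      obtain ⟨P', hP', hmem⟩ := kb_ideal (K := K) (Ω := Ω) hp hinf
      intro h
      apply hP'
      rw [eq_top_iff]
      intro y _
      rw [hmem, ← hc, h]
      exact TwoSidedIdeal.mem_top _
    exact ⟨hne, kb_prime hp hinf htop hc, (semiprimitive_iff P).2 (kb_nil hp hinf hc)⟩
  · obtain ⟨P, -, hP⟩ := kb_ideal (K := K) (Ω := Ω) hp h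
    exact ⟨P, hP⟩
  · rw [semiprimitive_iff]
    constructor
    · intro hI
      by_cases h0 : I = ⊥
      · exact Or.inl h0
      · exact Or.inr (desc2 hp hI h0)
    · rintro (rfl | ⟨n, C, hC⟩)
      · exact nilFree_bot
      · intro J hJ y hy
        rw [hC]
        intro c hc
        by_cases hfin : {a | Below c a ∧ PReg p a}.Finite
        · exact kb_fin hp hfin y
        · obtain ⟨P, -, hP⟩ := kb_ideal (K := K) (Ω := Ω) hp hfin
          have hnil := kb_nil hp hfin hP
          have hIP : I ≤ P := fun z hz => (hP z).2 ((hC z).1 hz c hc)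
          exact (hP y).1 (hnil J (fun z hz => by
            obtain ⟨N, hN⟩ := hJ z hz
            exact ⟨N, hIP hN⟩) hy)
  · by_contra hy
    obtain ⟨N, hN⟩ := h
    obtain ⟨e, s, x, he, hx⟩ := exists_emb_ge (K := K) N y
    have hxA : emb K s x ∉ Ann K Ω n := by rw [hx]; exact hy
    obtain ⟨e', f, M, hM, hf⟩ := exists_level (nilFree_ann n) s x hxA
    obtain ⟨a, ha, hs, -, hMa⟩ := over_eq (n := n) le_rfl hM
    obtain ⟨T, hT⟩ := extend_tuple f s
    apply hf
    rw [hMa]
    refine hN e' T (incl f x) (he.trans ?_) ?_ a ⟨ha, fun i => le_top⟩ hs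
    · simpa using Fintype.card_le_of_injective f f.injective
    · rw [emb_incl, ← hT, hx]
  · obtain ⟨D, hD⟩ := determined hp (nilFree_of_semiprimitive hI)
    exact ⟨D, fun J hJ => hD J (nilFree_of_semiprimitive hJ)⟩
  · have h1 : {I : Ideals K Ω | Semiprimitive I} = {I : Ideals K Ω | NilFree I} := by
      ext I
      exact semiprimitive_iff I
    rw [h1]
    exact countable_nilFree hp
  · rintro rfl m hm
    obtain ⟨P, hP, hlt, hnil⟩ := exists_prime_lt (K := K) (Ω := Ω) m hm
    refine ⟨P, hP, hlt, ?_, hnil⟩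
    rw [semiprimitive_iff]
    intro h
    exact absurd (h (Ann K Ω m) hnil) (not_le_of_gt hlt)

end Pool.Agent.Results.MP_a8d7f7_al.SemiprimitiveIdeals
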