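import Pool.Agent.Lib.MP_a8d7f7_al.P.Final

/-!
# The ideals of small growth of `K[FSym(Ω)]`

`K` is any field, `Ω` an infinite set.  The prime and the semiprime ideals of small growth of
`K[FSym(Ω)]` are determined in terms of the prime ideals of the finite-dimensional algebras `K[S_d]`,
with the inclusions between the prime ones; every ideal of small growth has polynomial growth, and
contains a product of such prime ideals which contain it.
-/

namespace Pool.Agent.Results.MP_a8d7f7_al.SmallGrowthIdeals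

open FinSym SmallPrime
open ThreeLetter (Ideals twist)

theorem result (K : Type*) [Field K] (Ω : Type*) [Infinite Ω] [DecidableEq Ω] :
    -- the prime ideals of small growth
    (∀ P : Ideals K Ω, (IsPrime P ∧ SmallGrowth P) ↔ Listed P) ∧
    -- the semiprime ideals of small growth are the finite intersections of them
    (∀ I : Ideals K Ω, (IsSemiprime I ∧ SmallGrowth I) ↔
      ∃ L : List (Ideals K Ω), (∀ P ∈ L, Listed P) ∧ ∀ y, y ∈ I ↔ ∀ P ∈ L, y ∈ P) ∧
    -- any ideal of small growth contains a product of prime ideals which contain it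
    (∀ I : Ideals K Ω, SmallGrowth I →
      ∃ L : List (Ideals K Ω), (∀ P ∈ L, Listed P ∧ I ≤ P) ∧ ProductLe L I) ∧
    -- small growth is polynomial growth
    (∀ I : Ideals K Ω, SmallGrowth I ↔ ∃ s, PolyGrowth s I) ∧
    -- the members of `PI N`
    (∀ (d : ℕ) (N : TwoSidedIdeal (SAlg K d)) (y : MonoidAlgebra K (FSym Ω)),
      y ∈ PI K Ω N ↔ ∀ a b : Fin d ↪ Ω, sym y a b ∈ N) ∧
    -- the growth of `PI N`
    (∀ (d : ℕ) (N : TwoSidedIdeal (SAlg K d)) (D : Finset Ω),
      codimIn (PI K Ω N) D ≤ (D.card + d) ^ (2 * d)) ∧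
    -- the inclusions
    (∀ (d e : ℕ) (N : TwoSidedIdeal (SAlg K d)) (M : TwoSidedIdeal (SAlg K e)), IsPrime M →
      (PI K Ω N ≤ PI K Ω M ↔ ∃ f : Fin e ↪ Fin d, ∀ n : SAlg K e, incl f n ∈ N → n ∈ M)) ∧
    -- the sign twist
    ((2 : K) ≠ 0 → ∀ (d e : ℕ) (N : TwoSidedIdeal (SAlg K d)) (M : TwoSidedIdeal (SAlg K e)),
      IsPrime M → ¬ twist (PI K Ω N) ≤ PI K Ω M) ∧
    ((2 : K) = 0 → ∀ I : Ideals K Ω, twist I = I) := by
  refine ⟨prime_iff, semiprime_iff, small_product, small_iff_poly, members,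
    fun d N D => growth_PI N D, fun d e N M hM => PI_le_iff hM, ?_, ?_⟩
  · intro h2 d e N M hM
    rw [ThreeLetter.twist_eq]
    exact not_tw_le h2 N hM.1
  · intro h2 I
    rw [ThreeLetter.twist_eq]
    exact tw_eq_of_two h2 I

end Pool.Agent.Results.MP_a8d7f7_al.SmallGrowthIdeals
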