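import Pool.Agent.Lib.MP_a8d7f7_al.R2.Final

/-!
# The two-sided ideals of `K[FSym(Ω)]` with a nonzero element moving at most three letters

`K` is a field of characteristic `p > 0`, `Ω` an infinite set.  All two-sided ideals which contain a
nonzero element moving at most three letters are determined, with their inclusions, generators and
members.
-/

namespace Pool.Agent.Results.MP_a8d7f7_al.ThreeLetterIdeals

open FinSym ThreeLetter

theorem result (K : Type*) [Field K] (p : ℕ) [Fact p.Prime] [CharP K p] (Ω : Type*) [Infinite Ω]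
    [DecidableEq Ω] :
    -- the ideals which contain the antisymmetrizer of three letters
    (∀ I : Ideals K Ω, (∃ Δ : Finset Ω, Δ.card = 3 ∧ antisymmetrizer K Δ ∈ I) ↔ Listed p I) ∧
    -- the ideals with a nonzero element moving at most three letters
    (∀ I : Ideals K Ω, (∃ f ∈ I, f ≠ 0 ∧ ∃ X : Finset Ω, X.card ≤ 3 ∧ Moves X f) ↔
      (Listed p I ∨ Listed p (twist I) ∨ I = evenIdeal K Ω)) ∧
    -- the inclusions between them
    Inclusions K p Ω ∧ TwistInclusions K p Ω ∧ EvenInclusions K p Ω ∧
    -- an antisymmetrizer of three letters and one product generate `I(k, c)`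
    (∀ (k c : ℕ) (Δ R S : Finset Ω) (u s : MonoidAlgebra K (FSym Ω)), Δ.card = 3 →
      R.card = p ^ k - 1 → Disjoint R S → IsDiff K c S u → IsSteinberg R s →
      TwoSidedIdeal.span {antisymmetrizer K Δ, u * s} = ideal K Ω p k c) ∧
    -- Steinberg elements exist
    (∀ (k : ℕ) (R : Finset Ω), R.card = p ^ k - 1 →
      ∃ s : MonoidAlgebra K (FSym Ω), IsSteinberg R s) ∧
    -- the members of `I(k, c)`
    (∀ (k c : ℕ) (y : MonoidAlgebra K (FSym Ω)), y ∈ ideal K Ω p k c ↔
      (∀ A B : Finset Ω, A.card < c → coeffSum y A B = 0) ∧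
      ∃ D₀ : Finset Ω, ∀ D, D₀ ⊆ D → Test (p ^ k - 1) D y) := by
  have hp : p.Prime := Fact.out
  exact ⟨fun I => (anti_iff I).trans (listed_iff hp I), small_iff hp, inclusions hp,
    twistInclusions hp, evenInclusions hp, generators hp, exists_steinberg hp, members hp⟩

end Pool.Agent.Results.MP_a8d7f7_al.ThreeLetterIdeals
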